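import Pool.Agent.Work.MP_65e34f.Basic

/-!
# MP_65e34f_al : block D3a
-/

set_option linter.unusedSectionVars false

namespace Pool.FG.h85

open Matrix Pool.FG
open scoped LinearAlgebra.Projectivization

/-! ### general counting -/

section count

/-- if all stabilizers have `s` elements and `|G| = s k`, then `k` divides `|X|` -/
lemma dvd_card_of_stab {G X : Type*} [Group G] [Finite G] [MulAction G X] [Finite X] (s k : ℕ)
    (hk : Nat.card G = s * k) (hs0 : 0 < s)
    (hs : ∀ x : X, Nat.card (MulAction.stabilizer G x) = s) : k ∣ Nat.card X := by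
  classical
  have := Fintype.ofFinite G
  have := Fintype.ofFinite X
  have : Fintype (MulAction.orbitRel.Quotient G X) := Fintype.ofFinite _
  rw [Nat.card_congr (MulAction.selfEquivSigmaOrbits' G X), Nat.card_sigma]
  apply Finset.dvd_sum
  intro ω _
  obtain ⟨x, rfl⟩ : ∃ x : X, (Quotient.mk'' x : MulAction.orbitRel.Quotient G X) = ω :=
    ⟨ω.out, Quotient.out_eq' ω⟩
  rw [MulAction.orbitRel.Quotient.orbit_mk]
  have h1 : (MulAction.stabilizer G x).index = Nat.card (MulAction.orbit G x) := by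
    rw [MulAction.index_stabilizer]; rfl
  have h2 := Subgroup.card_mul_index (MulAction.stabilizer G x)
  rw [hs x, hk, h1] at h2
  exact ⟨1, by rw [mul_one]; exact Nat.eq_of_mul_eq_mul_left hs0 h2⟩

/-- free actions -/
lemma dvd_card_of_free {G X : Type*} [Group G] [Finite G] [MulAction G X] [Finite X]
    (hf : ∀ (g : G) (x : X), g • x = x → g = 1) : Nat.card G ∣ Nat.card X := by
  apply dvd_card_of_stab (G := G) (X := X) 1 (Nat.card G) (by simp) one_pos
  intro x
  have : MulAction.stabilizer G x = ⊥ := by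
    rw [eq_bot_iff]
    intro g hg
    exact hf g x hg
  rw [this]; simp

end count

section
variable {K : Type} [Field K]


/-- the point `[1:0]` -/
noncomputable def e1 (K : Type) [Field K] : PF K :=
  Projectivization.mk (AlgebraicClosure K) ![1, 0] (by
    intro h; have := congrFun h 0; simp at this)

lemma smul_e1_iff (x : Matrix.SpecialLinearGroup (Fin 2) (AlgebraicClosure K)) :
    x • (e1 K) = e1 K ↔ x.1 1 0 = 0 := by
  unfold e1
  rw [Projectivization.smul_mk, Projectivization.mk_eq_mk_iff']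
  have hx : x • (![1, 0] : Fin 2 → (AlgebraicClosure K)) = ![x.1 0 0, x.1 1 0] := by
    rw [Matrix.SpecialLinearGroup.smul_def]
    ext i
    fin_cases i <;> simp [Matrix.smul_eq_mulVec, Matrix.mulVec, dotProduct]
  rw [hx]
  constructor
  · rintro ⟨a, ha⟩
    have := congrFun ha 1
    simpa using this.symm
  · intro h
    refine ⟨x.1 0 0, ?_⟩
    ext i
    fin_cases i <;> simp [h]


/-- the matrix of `h` after moving the point `g e1` to `e1` -/
noncomputable def ph (g : Matrix.SpecialLinearGroup (Fin 2) (AlgebraicClosure K)) :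
    SL K →* Matrix.SpecialLinearGroup (Fin 2) (AlgebraicClosure K) :=
  (MulAut.conj g⁻¹).toMonoidHom.comp
    (Matrix.SpecialLinearGroup.map (n := Fin 2) (algebraMap K (AlgebraicClosure K)))

lemma ph_apply (g : Matrix.SpecialLinearGroup (Fin 2) (AlgebraicClosure K)) (h : SL K) :
    ph g h = g⁻¹ * Matrix.SpecialLinearGroup.map (n := Fin 2) (algebraMap K (AlgebraicClosure K)) h * g := by
  simp [ph]

lemma ph_injective (g : Matrix.SpecialLinearGroup (Fin 2) (AlgebraicClosure K)) : Function.Injective (ph (K := K) g) := by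
  intro x y hxy
  rw [ph_apply, ph_apply] at hxy
  have h1 := mul_left_cancel (mul_right_cancel hxy)
  ext i j
  have h2 : (Matrix.SpecialLinearGroup.map (n := Fin 2) (algebraMap K (AlgebraicClosure K)) x).1 i j =
      (Matrix.SpecialLinearGroup.map (n := Fin 2) (algebraMap K (AlgebraicClosure K)) y).1 i j := by rw [h1]
  simpa using h2

lemma smul_def' (h : SL K) (P : PF K) :
    h • P = (Matrix.SpecialLinearGroup.map (n := Fin 2) (algebraMap K (AlgebraicClosure K)) h) • P := rfl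

lemma exists_g (P : PF K) : ∃ g : Matrix.SpecialLinearGroup (Fin 2) (AlgebraicClosure K), g • (e1 K) = P := by
  have : MulAction.IsPretransitive (Matrix.SpecialLinearGroup (Fin 2) (AlgebraicClosure K))
      (ℙ (AlgebraicClosure K) (Fin 2 → (AlgebraicClosure K))) := MulAction.isPretransitive_of_is_two_pretransitive
  exact MulAction.exists_smul_eq (Matrix.SpecialLinearGroup (Fin 2) (AlgebraicClosure K)) (e1 K) P

lemma fix_iff (g : Matrix.SpecialLinearGroup (Fin 2) (AlgebraicClosure K)) (h : SL K) :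
    h • (g • (e1 K)) = g • (e1 K) ↔ (ph g h).1 1 0 = 0 := by
  rw [← smul_e1_iff, ph_apply, smul_def', mul_smul, mul_smul, inv_smul_eq_iff]

lemma tr_ph (g : Matrix.SpecialLinearGroup (Fin 2) (AlgebraicClosure K)) (h : SL K) :
    (ph g h).1 0 0 + (ph g h).1 1 1 = algebraMap K (AlgebraicClosure K) (tr h) := by
  have h1 : (ph g h).1 0 0 + (ph g h).1 1 1 = (ph g h).1.trace := by
    simp [Matrix.trace_fin_two]
  rw [h1, ph_apply, Matrix.SpecialLinearGroup.coe_mul, Matrix.SpecialLinearGroup.coe_mul,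
    Matrix.trace_mul_comm, ← mul_assoc, ← Matrix.SpecialLinearGroup.coe_mul, mul_inv_cancel,
    Matrix.SpecialLinearGroup.coe_one, one_mul]
  simp [Matrix.trace_fin_two, tr]

lemma ph_neg (g : Matrix.SpecialLinearGroup (Fin 2) (AlgebraicClosure K)) (h : SL K) : ph g (-h) = - ph g h := by
  rw [ph_apply, ph_apply]
  have : Matrix.SpecialLinearGroup.map (n := Fin 2) (algebraMap K (AlgebraicClosure K)) (-h) =
      - Matrix.SpecialLinearGroup.map (n := Fin 2) (algebraMap K (AlgebraicClosure K)) h := by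
    ext i j; simp
  rw [this]; simp

/-- facts on upper triangular matrices of determinant one -/
lemma ut_det {x : Matrix.SpecialLinearGroup (Fin 2) (AlgebraicClosure K)} (h : x.1 1 0 = 0) : x.1 0 0 * x.1 1 1 = 1 := by
  have := x.2
  rw [Matrix.det_fin_two, h] at this
  linear_combination this

lemma ut_mul_10 {x y : Matrix.SpecialLinearGroup (Fin 2) (AlgebraicClosure K)} (hx : x.1 1 0 = 0) (hy : y.1 1 0 = 0) :
    (x * y).1 1 0 = 0 := by
  simp [Matrix.mul_apply, Fin.sum_univ_two, hx, hy]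

lemma ut_mul_00 {x y : Matrix.SpecialLinearGroup (Fin 2) (AlgebraicClosure K)} (hy : y.1 1 0 = 0) :
    (x * y).1 0 0 = x.1 0 0 * y.1 0 0 := by
  simp [Matrix.mul_apply, Fin.sum_univ_two, hy]

lemma ut_mul_11 {x y : Matrix.SpecialLinearGroup (Fin 2) (AlgebraicClosure K)} (hx : x.1 1 0 = 0) :
    (x * y).1 1 1 = x.1 1 1 * y.1 1 1 := by
  simp [Matrix.mul_apply, Fin.sum_univ_two, hx]

lemma ut_mul_01 {x y : Matrix.SpecialLinearGroup (Fin 2) (AlgebraicClosure K)} :
    (x * y).1 0 1 = x.1 0 0 * y.1 0 1 + x.1 0 1 * y.1 1 1 := by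
  simp [Matrix.mul_apply, Fin.sum_univ_two]

/-! ### the stabilizer and the unipotent part -/

/-- stabilizer of `P` in `H` -/
noncomputable def St (H : Subgroup (SL K)) (P : PF K) : Subgroup (SL K) := H ⊓ MulAction.stabilizer (SL K) P

lemma mem_St {H : Subgroup (SL K)} {P : PF K} {h : SL K} : h ∈ St H P ↔ h ∈ H ∧ h • P = P := by
  simp [St, Subgroup.mem_inf, MulAction.mem_stabilizer_iff]

/-- an element fixing `P` with trace 2 has the matrix `(1 b; 0 1)` -/
lemma unip {g : Matrix.SpecialLinearGroup (Fin 2) (AlgebraicClosure K)} {h : SL K} (h0 : (ph g h).1 1 0 = 0) :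
    tr h = 2 ↔ (ph g h).1 0 0 = 1 ∧ (ph g h).1 1 1 = 1 := by
  have ht := tr_ph g h
  have hd := ut_det h0
  constructor
  · intro h2
    rw [h2, map_ofNat] at ht
    have h3 : ((ph g h).1 0 0 - 1) ^ 2 = 0 := by
      have : (ph g h).1 1 1 = 2 - (ph g h).1 0 0 := by linear_combination ht
      rw [this] at hd
      linear_combination -hd
    have h4 : (ph g h).1 0 0 = 1 := by
      have := pow_eq_zero_iff (two_ne_zero) |>.mp h3
      linear_combination this
    refine ⟨h4, ?_⟩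
    rw [h4, one_mul] at hd
    exact hd
  · rintro ⟨h1, h2⟩
    rw [h1, h2] at ht
    apply (algebraMap K (AlgebraicClosure K)).injective
    rw [← ht, map_ofNat]; norm_num

/-- the unipotent part of the stabilizer of `P` -/
noncomputable def UU (H : Subgroup (SL K)) (P : PF K) : Subgroup (SL K) where
  carrier := {h | h ∈ H ∧ h • P = P ∧ tr h = 2}
  one_mem' := ⟨H.one_mem, one_smul _ _, by simp⟩
  mul_mem' := by
    rintro x y ⟨hx, hxP, hxt⟩ ⟨hy, hyP, hyt⟩
    refine ⟨H.mul_mem hx hy, by rw [mul_smul, hyP, hxP], ?_⟩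
    obtain ⟨g, rfl⟩ := exists_g P
    rw [fix_iff] at hxP hyP
    have h1 := (unip hxP).mp hxt
    have h2 := (unip hyP).mp hyt
    have h3 : (ph g (x * y)).1 1 0 = 0 := by rw [map_mul]; exact ut_mul_10 hxP hyP
    rw [unip h3, map_mul, ut_mul_00 hyP, ut_mul_11 hxP, h1.1, h1.2, h2.1, h2.2]
    simp
  inv_mem' := by
    rintro x ⟨hx, hxP, hxt⟩
    refine ⟨H.inv_mem hx, by rw [inv_smul_eq_iff, hxP], by rw [tr_inv, hxt]⟩

lemma mem_UU {H : Subgroup (SL K)} {P : PF K} {h : SL K} :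
    h ∈ UU H P ↔ h ∈ H ∧ h • P = P ∧ tr h = 2 := Iff.rfl

/-- an element fixing `P` with `λ² = 1` is `± u` -/
lemma sq_one {g : Matrix.SpecialLinearGroup (Fin 2) (AlgebraicClosure K)} {h : SL K} (h0 : (ph g h).1 1 0 = 0)
    (h1 : (ph g h).1 0 0 ^ 2 = 1) : tr h = 2 ∨ tr (-h) = 2 := by
  have hd := ut_det h0
  have h2 : ((ph g h).1 0 0 - 1) * ((ph g h).1 0 0 + 1) = 0 := by linear_combination h1
  rcases mul_eq_zero.mp h2 with h2 | h2
  · left
    have h3 : (ph g h).1 0 0 = 1 := by linear_combination h2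
    rw [unip h0]
    exact ⟨h3, by rw [h3, one_mul] at hd; exact hd⟩
  · right
    have h3 : (ph g h).1 0 0 = -1 := by linear_combination h2
    have h4 : (ph g (-h)).1 1 0 = 0 := by rw [ph_neg]; simp [h0]
    rw [unip h4, ph_neg]
    rw [h3] at hd
    refine ⟨by simp [h3], ?_⟩
    simp only [Matrix.SpecialLinearGroup.coe_neg, Matrix.neg_apply]
    linear_combination hd


lemma two_eq_zero_of_four (h : (4 : K) = 0) : (2 : K) = 0 := by
  have : (2 : K) * 2 = 0 := by linear_combination h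
  simpa using this

lemma neg_one_eq_one (h : (2 : K) = 0) : (-1 : SL K) = 1 := by
  have h1 : (-1 : K) = 1 := by linear_combination -h
  ext i j
  fin_cases i <;> fin_cases j <;> simp [h1]

lemma two_of_neg_one (h : (-1 : SL K) = 1) : (2 : K) = 0 := by
  have := congrArg (fun x : SL K => x.1 0 0) h
  simp at this
  linear_combination -this

lemma eq_one_of_Sc {u : SL K} (h1 : Sc u) (h2 : tr u = 2) : u = 1 := by
  rcases h1 with h1 | h1
  · exact h1
  · rw [h1, tr_neg, tr_one] at h2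
    rw [h1]
    exact neg_one_eq_one (two_eq_zero_of_four (by linear_combination -h2))

lemma par_of_UU {H : Subgroup (SL K)} {P : PF K} {u : SL K} (hu : u ∈ UU H P) (h1 : u ≠ 1) :
    Par u := by
  refine ⟨fun h => h1 (eq_one_of_Sc h hu.2.2), ?_⟩
  rw [hu.2.2]; norm_num

lemma unique_fix (hD0 : Stmt_D0) [Finite K] {h : SL K} (hp : Par h) {P Q : PF K} (hP : h • P = P)
    (hQ : h • Q = Q) : Q = P := by
  obtain ⟨R, hR⟩ := (hD0 K).2.1 h hp
  rw [(hR Q).mp hQ, (hR P).mp hP]

lemma par_decomp {H : Subgroup (SL K)} (hH : -1 ∈ H) {P : PF K} {h : SL K} (hh : h ∈ H)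
    (hp : Par h) (hP : h • P = P) : ∃ s u : SL K, Sc s ∧ u ∈ UU H P ∧ u ≠ 1 ∧ s * u = h := by
  obtain ⟨g, rfl⟩ := exists_g P
  have h0 := (fix_iff g h).mp hP
  have hd := ut_det h0
  have ht := tr_ph g h
  have h2 : ((ph g h).1 0 0 + (ph g h).1 1 1) ^ 2 = 4 := by
    rw [ht, ← map_pow, hp.2, map_ofNat]
  have h3 : ((ph g h).1 0 0 - (ph g h).1 1 1) ^ 2 = 0 := by linear_combination h2 - 4 * hd
  have h4 : (ph g h).1 0 0 = (ph g h).1 1 1 := by
    have := pow_eq_zero_iff (two_ne_zero) |>.mp h3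
    linear_combination this
  have h5 : (ph g h).1 0 0 ^ 2 = 1 := by rw [sq]; nth_rw 2 [h4]; exact hd
  rcases sq_one h0 h5 with h6 | h6
  · refine ⟨1, h, Sc_one, ⟨hh, hP, h6⟩, ?_, by simp⟩
    rintro rfl
    exact hp.1 Sc_one
  · have hm : -h = (-1) * h := by simp
    refine ⟨-1, -h, Sc_neg_one, ⟨?_, ?_, h6⟩, ?_, by simp⟩
    · rw [hm]; exact H.mul_mem hH hh
    · rw [fix_iff, ph_neg]; simp [h0]
    · intro h7
      apply hp.1
      right
      rw [← h7, neg_neg]

lemma sc_smul {s : SL K} (hs : Sc s) (P : PF K) : s • P = P := by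
  obtain ⟨g, rfl⟩ := exists_g P
  rw [fix_iff]
  rcases hs with rfl | rfl
  · simp
  · rw [ph_neg]; simp

lemma par_smul {s u : SL K} (hs : Sc s) (hu : Par u) : Par (s * u) := by
  rcases hs with rfl | rfl
  · simpa using hu
  · have : (-1 : SL K) * u = -u := by simp
    rw [this]
    refine ⟨fun h => hu.1 (Sc_neg_iff.mp h), ?_⟩
    rw [tr_neg]; rw [← hu.2]; ring

lemma inj_su (H : Subgroup (SL K)) (P : PF K) :
    Set.InjOn (fun w : SL K × SL K => w.1 * w.2) ({x : SL K | Sc x} ×ˢ (UU H P : Set (SL K))) := by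
  rintro ⟨s, u⟩ ⟨hs, hu⟩ ⟨s', u'⟩ ⟨hs', hu'⟩ h
  simp only [Set.mem_ofPred_eq] at hs hs' h
  have hu1 : u ∈ UU H P := hu
  have hu2 : u' ∈ UU H P := hu'
  have h1 : s'⁻¹ * s = u' * u⁻¹ := by
    rw [eq_mul_inv_iff_mul_eq, mul_assoc, h, ← mul_assoc, inv_mul_cancel, one_mul]
  have h2 : Sc (s'⁻¹ * s) := hs'.inv.mul hs
  have h3 : u' * u⁻¹ ∈ UU H P := (UU H P).mul_mem hu2 ((UU H P).inv_mem hu1)
  have h4 : u' * u⁻¹ = 1 := eq_one_of_Sc (by rw [← h1]; exact h2) h3.2.2
  have h5 : u' = u := by rw [← mul_inv_eq_one]; exact h4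
  rw [h4] at h1
  have h6 : s = s' := by
    rw [inv_mul_eq_one] at h1; exact h1.symm
  rw [h5, h6]

/-- number of parabolic elements fixing `P` -/
lemma ncard_par [Finite K] {H : Subgroup (SL K)} (hH : -1 ∈ H) (P : PF K) :
    Set.ncard {h : SL K | h ∈ H ∧ Par h ∧ h • P = P} =
      Set.ncard {x : SL K | Sc x} * (Nat.card (UU H P) - 1) := by
  have himg : {h : SL K | h ∈ H ∧ Par h ∧ h • P = P} = (fun w : SL K × SL K => w.1 * w.2) ''
      ({x : SL K | Sc x} ×ˢ ((UU H P : Set (SL K)) \ {1})) := by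
    ext h
    constructor
    · rintro ⟨h1, h2, h3⟩
      obtain ⟨s, u, hs, hu, hu1, rfl⟩ := par_decomp hH h1 h2 h3
      exact ⟨(s, u), ⟨hs, hu, hu1⟩, rfl⟩
    · rintro ⟨⟨s, u⟩, ⟨hs, hu, hu1⟩, rfl⟩
      have hs' : Sc s := hs
      have hu' : u ∈ UU H P := hu
      refine ⟨H.mul_mem (sc_mem hH hs') hu'.1, par_smul hs' (par_of_UU hu' hu1), ?_⟩
      simp only
      rw [mul_smul, hu'.2.1, sc_smul hs']
  rw [himg, Set.InjOn.ncard_image ((inj_su H P).mono (Set.prod_mono_right Set.sdiff_subset)),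
    Set.ncard_prod, Set.ncard_sdiff_singleton_of_mem (by exact (UU H P).one_mem)]
  rfl

/-- number of elements with `λ² = 1` -/
lemma ncard_lam [Finite K] {H : Subgroup (SL K)} (hH : -1 ∈ H)
    (g : Matrix.SpecialLinearGroup (Fin 2) (AlgebraicClosure K)) :
    Set.ncard {h : SL K | h ∈ St H (g • e1 K) ∧ (ph g h).1 0 0 ^ 2 = 1} =
      Set.ncard {x : SL K | Sc x} * Nat.card (UU H (g • e1 K)) := by
  have himg : {h : SL K | h ∈ St H (g • e1 K) ∧ (ph g h).1 0 0 ^ 2 = 1} =
      (fun w : SL K × SL K => w.1 * w.2) ''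
      ({x : SL K | Sc x} ×ˢ ((UU H (g • e1 K) : Set (SL K)))) := by
    ext h
    constructor
    · rintro ⟨h1, h2⟩
      obtain ⟨h3, h4⟩ := mem_St.mp h1
      have h0 := (fix_iff g h).mp h4
      rcases sq_one h0 h2 with h6 | h6
      · exact ⟨(1, h), ⟨Sc_one, h3, h4, h6⟩, by simp⟩
      · have hm : -h = (-1) * h := by simp
        refine ⟨(-1, -h), ⟨Sc_neg_one, ⟨?_, ?_, h6⟩⟩, by simp⟩
        · simp only
          rw [hm]; exact H.mul_mem hH h3
        · simp only
          rw [fix_iff, ph_neg]; simp [h0]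
    · rintro ⟨⟨s, u⟩, ⟨hs, hu⟩, rfl⟩
      have hs' : Sc s := hs
      have hu' : u ∈ UU H (g • e1 K) := hu
      have h0 := (fix_iff g u).mp hu'.2.1
      refine ⟨mem_St.mpr ⟨H.mul_mem (sc_mem hH hs') hu'.1, ?_⟩, ?_⟩
      · simp only
        rw [mul_smul, hu'.2.1, sc_smul hs']
      · have h1 := ((unip h0).mp hu'.2.2).1
        rcases hs' with rfl | rfl
        · simp [h1]
        · have : (-1 : SL K) * u = -u := by simp
          simp only
          rw [this, ph_neg]
          simp [h1]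
  rw [himg, Set.InjOn.ncard_image (inj_su H _), Set.ncard_prod]
  rfl

/-- commuting with a unipotent element -/
lemma comm_iff {H : Subgroup (SL K)} {g : Matrix.SpecialLinearGroup (Fin 2) (AlgebraicClosure K)} {h u : SL K}
    (hh : h • (g • e1 K) = g • e1 K) (hu : u ∈ UU H (g • e1 K)) (hu1 : u ≠ 1) :
    h * u = u * h ↔ (ph g h).1 0 0 ^ 2 = 1 := by
  have h0 := (fix_iff g h).mp hh
  have hu0 := (fix_iff g u).mp hu.2.1
  have h1 := (unip hu0).mp hu.2.2
  have hd := ut_det h0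
  have hb : (ph g u).1 0 1 ≠ 0 := by
    intro hb
    apply hu1
    apply ph_injective g
    rw [map_one]
    ext i j
    fin_cases i <;> fin_cases j <;> simp [h1.1, h1.2, hu0, hb]
  constructor
  · intro hc
    have h2 : (ph g (h * u)).1 0 1 = (ph g (u * h)).1 0 1 := by rw [hc]
    rw [map_mul, map_mul, ut_mul_01, ut_mul_01, h1.1, h1.2] at h2
    have h3 : ((ph g h).1 0 0 - (ph g h).1 1 1) * (ph g u).1 0 1 = 0 := by linear_combination h2
    have h4 : (ph g h).1 0 0 = (ph g h).1 1 1 := by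
      rcases mul_eq_zero.mp h3 with h3 | h3
      · linear_combination h3
      · exact absurd h3 hb
    rw [sq]; nth_rw 2 [h4]; exact hd
  · intro hl
    have h4 : (ph g h).1 0 0 = (ph g h).1 1 1 := by
      have hne : (ph g h).1 0 0 ≠ 0 := by
        intro h5; rw [h5] at hl; simp at hl
      apply mul_left_cancel₀ hne
      rw [hd, ← sq, hl]
    apply ph_injective g
    rw [map_mul, map_mul]
    ext i j
    fin_cases i <;> fin_cases j <;>
      simp only [Fin.zero_eta, Fin.mk_one, Fin.isValue] <;>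
      first
        | (rw [ut_mul_01, ut_mul_01, h1.1, h1.2, h4]; ring)
        | (rw [ut_mul_00 hu0, ut_mul_00 h0, h1.1]; ring)
        | (rw [ut_mul_11 h0, ut_mul_11 hu0, h1.2]; ring)
        | (rw [ut_mul_10 h0 hu0, ut_mul_10 hu0 h0])

lemma conj_mem {H : Subgroup (SL K)} {P : PF K} {h u : SL K} (hh : h ∈ H)
    (hu : u ∈ UU H P) : h * u * h⁻¹ ∈ UU H (h • P) := by
  refine ⟨H.mul_mem (H.mul_mem hh hu.1) (H.inv_mem hh), ?_, ?_⟩
  · rw [mul_smul, mul_smul, inv_smul_smul, hu.2.1]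
  · rw [tr_conj, hu.2.2]

/-- the conjugation action of the stabilizer on the nontrivial unipotent elements -/
@[reducible] noncomputable def conjAct (H : Subgroup (SL K)) (P : PF K) :
    MulAction (St H P) {u : SL K // u ∈ UU H P ∧ u ≠ 1} where
  smul h u := ⟨h.1 * u.1 * h.1⁻¹, by
    have h1 := mem_St.mp h.2
    refine ⟨?_, ?_⟩
    · have := conj_mem h1.1 u.2.1
      rwa [h1.2] at this
    · intro h2
      apply u.2.2
      rw [mul_inv_eq_one] at h2
      exact mul_left_cancel (a := h.1) (by rw [h2, mul_one])⟩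
  one_smul u := by
    apply Subtype.ext
    change (1 : SL K) * u.1 * (1 : SL K)⁻¹ = u.1
    simp
  mul_smul x y u := by
    apply Subtype.ext
    change (x.1 * y.1) * u.1 * (x.1 * y.1)⁻¹ = x.1 * (y.1 * u.1 * y.1⁻¹) * x.1⁻¹
    group

/-- the order of the stabilizer -/
lemma card_St [Finite K] {H : Subgroup (SL K)} (hH : -1 ∈ H) {P : PF K} {u : SL K}
    (hu : u ∈ UU H P) (hu1 : u ≠ 1) : ∃ k : ℕ, 1 ≤ k ∧ k ∣ Nat.card (UU H P) - 1 ∧
      Nat.card (St H P) = Set.ncard {x : SL K | Sc x} * Nat.card (UU H P) * k := by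
  classical
  obtain ⟨g, rfl⟩ := exists_g P
  let _ := conjAct H (g • e1 K)
  set s := Set.ncard {x : SL K | Sc x} * Nat.card (UU H (g • e1 K)) with hs
  have hstab : ∀ x : {u : SL K // u ∈ UU H (g • e1 K) ∧ u ≠ 1},
      Nat.card (MulAction.stabilizer (St H (g • e1 K)) x) = s := by
    intro x
    rw [hs, ← ncard_lam hH g]
    have h1 : Subtype.val '' (MulAction.stabilizer (St H (g • e1 K)) x : Set (St H (g • e1 K))) =
        {h : SL K | h ∈ St H (g • e1 K) ∧ (ph g h).1 0 0 ^ 2 = 1} := by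
      ext h
      constructor
      · rintro ⟨y, hy, rfl⟩
        refine ⟨y.2, ?_⟩
        have h2 : y.1 * x.1 * y.1⁻¹ = x.1 := congrArg Subtype.val (MulAction.mem_stabilizer_iff.mp hy)
        rw [← comm_iff (mem_St.mp y.2).2 x.2.1 x.2.2]
        rw [mul_inv_eq_iff_eq_mul] at h2
        exact h2
      · rintro ⟨h2, h3⟩
        refine ⟨⟨h, h2⟩, ?_, rfl⟩
        change (⟨h, h2⟩ : St H (g • e1 K)) • x = x
        apply Subtype.ext
        change h * x.1 * h⁻¹ = x.1
        rw [← comm_iff (mem_St.mp h2).2 x.2.1 x.2.2] at h3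
        rw [mul_inv_eq_iff_eq_mul]
        exact h3
    rw [← h1, Set.ncard_image_of_injective _ Subtype.val_injective]
    rfl
  have hdvd : s ∣ Nat.card (St H (g • e1 K)) := by
    rw [← hstab ⟨u, hu, hu1⟩]
    exact Subgroup.card_subgroup_dvd_card _
  obtain ⟨k, hk⟩ := hdvd
  have hpos : 0 < Nat.card (St H (g • e1 K)) := Nat.card_pos
  have hs0 : 0 < s := by
    rcases Nat.eq_zero_or_pos s with h | h
    · rw [h, zero_mul] at hk; omega
    · exact h
  have hk0 : 1 ≤ k := by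
    rcases Nat.eq_zero_or_pos k with h | h
    · rw [h, mul_zero] at hk; omega
    · exact h
  refine ⟨k, hk0, ?_, hk⟩
  have h1 := dvd_card_of_stab (G := St H (g • e1 K)) (X := {u : SL K // u ∈ UU H (g • e1 K) ∧ u ≠ 1})
    s k hk hs0 hstab
  have h2 : Nat.card {u : SL K // u ∈ UU H (g • e1 K) ∧ u ≠ 1} = Nat.card (UU H (g • e1 K)) - 1 := by
    have : Nat.card {u : SL K // u ∈ UU H (g • e1 K) ∧ u ≠ 1} =
      Set.ncard ((UU H (g • e1 K) : Set (SL K)) \ {1}) := rfl
    rw [this, Set.ncard_sdiff_singleton_of_mem (by exact (UU H _).one_mem)]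
    rfl
  rwa [h2] at h1

/-! ### powers -/

lemma pow_unip {u : SL K} (h : tr u = 2) (n : ℕ) :
    ((u ^ n : SL K) : M2 K) = (n : K) • (u : M2 K) - ((n : K) - 1) • (1 : M2 K) := by
  have h2 := mul_self_eq u
  rw [h] at h2
  induction n with
  | zero => simp
  | succ n ih =>
    rw [pow_succ, Matrix.SpecialLinearGroup.coe_mul, ih, sub_mul, smul_mul_assoc, h2,
      smul_mul_assoc, one_mul]
    push_cast
    ext i j
    simp only [Matrix.sub_apply, Matrix.smul_apply, smul_eq_mul, Matrix.one_apply]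
    split_ifs <;> ring

lemma pow_char {u : SL K} (h : tr u = 2) {p : ℕ} [CharP K p] : u ^ p = 1 := by
  apply Subtype.ext
  rw [pow_unip h p, CharP.cast_eq_zero]
  simp

lemma p_dvd [Finite K] {p : ℕ} [CharP K p] (hp : p.Prime) {H : Subgroup (SL K)} {P : PF K} {u : SL K}
    (hu : u ∈ UU H P) (hu1 : u ≠ 1) : p ∣ Nat.card (UU H P) := by
  have : Fact p.Prime := ⟨hp⟩
  have h1 : orderOf (⟨u, hu⟩ : UU H P) = p := by
    apply orderOf_eq_prime
    · apply Subtype.ext
      simpa using pow_char hu.2.2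
    · intro h
      exact hu1 (congrArg Subtype.val h)
  rw [← h1]
  exact orderOf_dvd_natCard _


/-! ### the set `Ω` -/

lemma Om_finite (hD0 : Stmt_D0) [Finite K] (H : Subgroup (SL K)) : (Om H).Finite := by
  have h1 : Om H ⊆ ⋃ h : SL K, {P : PF K | Par h ∧ h • P = P} := by
    rintro P ⟨h, _, hp, hP⟩
    exact Set.mem_iUnion.mpr ⟨h, hp, hP⟩
  apply (Set.finite_iUnion (fun h => ?_)).subset h1
  apply Set.Subsingleton.finite
  rintro P ⟨hp, hP⟩ Q ⟨_, hQ⟩
  exact unique_fix hD0 hp hQ hP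

lemma par_conj {x h : SL K} (hp : Par h) : Par (x * h * x⁻¹) :=
  ⟨fun hs => hp.1 (Sc_conj_iff.mp hs), by rw [tr_conj]; exact hp.2⟩

lemma Om_stable {H : Subgroup (SL K)} {x : SL K} (hx : x ∈ H) {P : PF K} (hP : P ∈ Om H) :
    x • P ∈ Om H := by
  obtain ⟨h, hh, hp, hP⟩ := hP
  refine ⟨x * h * x⁻¹, H.mul_mem (H.mul_mem hx hh) (H.inv_mem hx), par_conj hp, ?_⟩
  rw [mul_smul, mul_smul, inv_smul_smul, hP]

lemma exists_u {H : Subgroup (SL K)} (hH : -1 ∈ H) {P : PF K} (hP : P ∈ Om H) :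
    ∃ u ∈ UU H P, u ≠ 1 := by
  obtain ⟨h, hh, hp, hP⟩ := hP
  obtain ⟨_, u, _, hu, hu1, _⟩ := par_decomp hH hh hp hP
  exact ⟨u, hu, hu1⟩

/-- the action of `U_P` on a stable set minus `P` -/
@[reducible] noncomputable def freeAct (H : Subgroup (SL K)) (P : PF K) (O : Set (PF K))
    (hO : ∀ x ∈ H, ∀ Q ∈ O, x • Q ∈ O) : MulAction (UU H P) {Q : PF K // Q ∈ O ∧ Q ≠ P} where
  smul u Q := ⟨u.1 • Q.1, hO _ u.2.1 _ Q.2.1, by
    intro h
    apply Q.2.2
    exact (smul_left_cancel_iff u.1).mp (h.trans u.2.2.1.symm)⟩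
  one_smul Q := by
    apply Subtype.ext
    exact one_smul (SL K) Q.1
  mul_smul x y Q := by
    apply Subtype.ext
    exact mul_smul x.1 y.1 Q.1

lemma dvd_sub (hD0 : Stmt_D0) [Finite K] (H : Subgroup (SL K)) (P : PF K) (O : Set (PF K))
    (hO : ∀ x ∈ H, ∀ Q ∈ O, x • Q ∈ O) (hfin : O.Finite) :
    Nat.card (UU H P) ∣ (O \ {P}).ncard := by
  let _ := freeAct H P O hO
  have : Finite {Q : PF K // Q ∈ O ∧ Q ≠ P} := (hfin.subset (fun Q hQ => hQ.1)).to_subtype
  have h1 := dvd_card_of_free (G := UU H P) (X := {Q : PF K // Q ∈ O ∧ Q ≠ P}) (by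
    intro u Q h
    by_contra hu
    have hu' : u.1 ≠ 1 := fun h => hu (Subtype.ext h)
    have h2 : u.1 • Q.1 = Q.1 := congrArg Subtype.val h
    exact Q.2.2 (unique_fix hD0 (par_of_UU u.2 hu') u.2.2.1 h2))
  exact h1

lemma trans_Om (hD0 : Stmt_D0) [Finite K] {H : Subgroup (SL K)} (hH : -1 ∈ H) {P Q : PF K}
    (hP : P ∈ Om H) (hQ : Q ∈ Om H) : ∃ x ∈ H, x • P = Q := by
  obtain ⟨p, hp⟩ := CharP.exists K
  have hpp : p.Prime := by
    rcases CharP.char_is_prime_or_zero K p with h | h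
    · exact h
    · exfalso
      rw [h] at hp
      have := CharP.charP_to_charZero K
      exact not_finite K
  by_contra hcon
  set O : Set (PF K) := {R | ∃ x ∈ H, x • P = R} with hOdef
  have hsub : O ⊆ Om H := by
    rintro R ⟨x, hx, rfl⟩
    exact Om_stable hx hP
  have hfin : O.Finite := (Om_finite hD0 H).subset hsub
  have hO : ∀ x ∈ H, ∀ R ∈ O, x • R ∈ O := by
    rintro x hx R ⟨y, hy, rfl⟩
    exact ⟨x * y, H.mul_mem hx hy, mul_smul _ _ _⟩
  have hPO : P ∈ O := ⟨1, H.one_mem, one_smul _ _⟩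
  have hQO : Q ∉ O := hcon
  have h1 := dvd_sub hD0 H P O hO hfin
  have h2 := dvd_sub hD0 H Q O hO hfin
  rw [Set.sdiff_singleton_eq_self hQO] at h2
  rw [Set.ncard_sdiff_singleton_of_mem hPO] at h1
  obtain ⟨u, hu, hu1⟩ := exists_u hH hP
  obtain ⟨v, hv, hv1⟩ := exists_u hH hQ
  have h3 := (p_dvd hpp hu hu1).trans h1
  have h4 := (p_dvd hpp hv hv1).trans h2
  have h5 : 0 < O.ncard := (Set.ncard_pos hfin).mpr ⟨P, hPO⟩
  have h6 : p ∣ 1 := by
    have := Nat.dvd_sub h4 h3
    have h7 : O.ncard - (O.ncard - 1) = 1 := by omega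
    rwa [h7] at this
  exact hpp.one_lt.ne' (Nat.dvd_one.mp h6)

lemma card_UU_le [Finite K] {H : Subgroup (SL K)} {x : SL K} (hx : x ∈ H) (P : PF K) :
    Nat.card (UU H P) ≤ Nat.card (UU H (x • P)) := by
  apply Nat.card_le_card_of_injective (fun u => (⟨x * u.1 * x⁻¹, conj_mem hx u.2⟩ : UU H (x • P)))
  intro u v huv
  have h := congrArg Subtype.val huv
  simp only at h
  exact Subtype.ext (mul_left_cancel (mul_right_cancel h))

lemma card_UU_eq [Finite K] {H : Subgroup (SL K)} {x : SL K} (hx : x ∈ H) (P : PF K) :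
    Nat.card (UU H (x • P)) = Nat.card (UU H P) := by
  apply le_antisymm _ (card_UU_le hx P)
  have := card_UU_le (H.inv_mem hx) (x • P)
  rwa [inv_smul_smul] at this

lemma card_H (hD0 : Stmt_D0) [Finite K] {H : Subgroup (SL K)} (hH : -1 ∈ H) {P : PF K}
    (hP : P ∈ Om H) : Nat.card H = (Om H).ncard * Nat.card (St H P) := by
  have h1 : (MulAction.stabilizer H P).index = (MulAction.orbit H P).ncard :=
    MulAction.index_stabilizer H P
  have h2 := Subgroup.card_mul_index (MulAction.stabilizer H P)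
  have h3 : MulAction.orbit H P = Om H := by
    ext Q
    constructor
    · rintro ⟨x, rfl⟩
      exact Om_stable x.2 hP
    · intro hQ
      obtain ⟨x, hx, rfl⟩ := trans_Om hD0 hH hP hQ
      exact ⟨⟨x, hx⟩, rfl⟩
  have h4 : Nat.card (MulAction.stabilizer H P) = Nat.card (St H P) := by
    have h5 : Subtype.val '' (MulAction.stabilizer H P : Set H) = (St H P : Set (SL K)) := by
      ext h
      constructor
      · rintro ⟨y, hy, rfl⟩
        exact mem_St.mpr ⟨y.2, hy⟩
      · intro h6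
        obtain ⟨h7, h8⟩ := mem_St.mp h6
        exact ⟨⟨h, h7⟩, h8, rfl⟩
    have h6 : Nat.card (St H P) = (St H P : Set (SL K)).ncard := rfl
    rw [h6, ← h5, Set.ncard_image_of_injective _ Subtype.val_injective]
    rfl
  rw [← h2, h1, h3, h4, mul_comm]

theorem stmt_D3a (hD0 : Stmt_D0) : Stmt_D3a := by
  intro K _ _ H hH hpar
  obtain ⟨h0, hh0, hp0⟩ := hpar
  obtain ⟨P0, hP0⟩ := (hD0 K).2.1 h0 hp0
  have hPO : P0 ∈ Om H := ⟨h0, hh0, hp0, (hP0 P0).mpr rfl⟩
  have hfin := Om_finite hD0 H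
  obtain ⟨u, hu, hu1⟩ := exists_u hH hPO
  obtain ⟨p, hp⟩ := CharP.exists K
  have hpp : p.Prime := by
    rcases CharP.char_is_prime_or_zero K p with h | h
    · exact h
    · exfalso
      rw [h] at hp
      have := CharP.charP_to_charZero K
      exact not_finite K
  obtain ⟨k, hk1, hk2, hk3⟩ := card_St hH hu hu1
  have hpa := p_dvd hpp hu hu1
  have hapos : 0 < Nat.card (UU H P0) := Nat.card_pos
  have ha : ∀ P ∈ Om H, Nat.card (UU H P) = Nat.card (UU H P0) := by
    intro P hP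
    obtain ⟨x, hx, rfl⟩ := trans_Om hD0 hH hPO hP
    exact card_UU_eq hx P0
  have hst : ∀ P ∈ Om H, Nat.card (St H P) = Nat.card (St H P0) := by
    intro P hP
    have h1 := card_H hD0 hH hPO
    have h2 := card_H hD0 hH hP
    rw [h1] at h2
    exact (Nat.eq_of_mul_eq_mul_left ((Set.ncard_pos hfin).mpr ⟨P0, hPO⟩) h2).symm
  have hn := dvd_sub hD0 H P0 (Om H) (fun x hx Q hQ => Om_stable hx hQ) hfin
  rw [Set.ncard_sdiff_singleton_of_mem hPO] at hn
  obtain ⟨r, hr⟩ := hn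
  have hnpos : 0 < (Om H).ncard := (Set.ncard_pos hfin).mpr ⟨P0, hPO⟩
  refine ⟨Set.ncard {x : SL K | Sc x}, Nat.card (UU H P0), k, r, (Om H).ncard, rfl,
    hpp.two_le.trans (Nat.le_of_dvd hapos hpa), hk1, ?_, hk2, ?_, rfl, ?_, ?_, ?_, ?_, ?_⟩
  · rw [mul_comm r]; omega
  · intro hz
    have h1 : (-1 : SL K) = 1 := by
      rw [Set.ncard_eq_one] at hz
      obtain ⟨w, hw⟩ := hz
      have h2 : (1 : SL K) ∈ {x : SL K | Sc x} := Sc_one
      have h3 : (-1 : SL K) ∈ {x : SL K | Sc x} := Sc_neg_one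
      rw [hw] at h2 h3
      rw [Set.mem_singleton_iff] at h2 h3
      exact h3.trans h2.symm
    have h2 := two_of_neg_one h1
    have h3 : p ∣ 2 := by
      have : ((2 : ℕ) : K) = 0 := by exact_mod_cast h2
      exact (CharP.cast_eq_zero_iff K p 2).mp this
    have h4 : p = 2 := (Nat.prime_dvd_prime_iff_eq hpp Nat.prime_two).mp h3
    rw [h4] at hpa
    exact even_iff_two_dvd.mpr hpa
  · intro P hP Q hQ
    exact trans_Om hD0 hH hP hQ
  · intro P hP
    exact ha P hP
  · intro P hP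
    rw [← hk3, ← hst P hP]
    change _ = (St H P : Set (SL K)).ncard
    congr 1
  · rw [card_H hD0 hH hPO, hk3]; ring
  · have hfp : ∀ h : SL K, ∃ P : PF K, (h ∈ H ∧ Par h) → (P ∈ Om H ∧ h • P = P) := by
      intro h
      by_cases hh : h ∈ H ∧ Par h
      · obtain ⟨P, hP⟩ := (hD0 K).2.1 h hh.2
        exact ⟨P, fun _ => ⟨⟨h, hh.1, hh.2, (hP P).mpr rfl⟩, (hP P).mpr rfl⟩⟩
      · exact ⟨P0, fun h => absurd h hh⟩
    choose f hf using hfp
    have hfib : ∀ P ∈ Om H, Set.ncard {h | h ∈ {h : SL K | h ∈ H ∧ Par h} ∧ f h = P} =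
        Set.ncard {x : SL K | Sc x} * (Nat.card (UU H P0) - 1) := by
      intro P hP
      rw [← ha P hP, ← ncard_par hH P]
      congr 1
      ext h
      constructor
      · rintro ⟨⟨h1, h2⟩, rfl⟩
        exact ⟨h1, h2, (hf h ⟨h1, h2⟩).2⟩
      · rintro ⟨h1, h2, h3⟩
        exact ⟨⟨h1, h2⟩, unique_fix hD0 h2 h3 (hf h ⟨h1, h2⟩).2⟩
    have h1 := ncard_le_mul_of_fiber (Set.toFinite {h : SL K | h ∈ H ∧ Par h}) hfin f
      (fun h hh => (hf h hh).1) _ (fun P hP => (hfib P hP).le)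
    have h2 := mul_le_ncard_of_fiber (Set.toFinite {h : SL K | h ∈ H ∧ Par h}) hfin f
      _ (fun P hP => (hfib P hP).ge)
    rw [le_antisymm h1 h2]; ring

end

end Pool.FG.h85
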