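import Pool.Agent.Work.MP_65e34f_85.D3a

/-!
# MP_65e34f_al : block D4
-/

set_option linter.unusedSectionVars false

namespace Pool.FG.h85

open Matrix Pool.FG
open scoped LinearAlgebra.Projectivization

section
variable {K : Type} [Field K]


/-- extension of scalars -/
noncomputable def io (v : Fin 2 → K) : Fin 2 → (AlgebraicClosure K) := fun i => algebraMap K (AlgebraicClosure K) (v i)

lemma io_ne {v : Fin 2 → K} (hv : v ≠ 0) : io v ≠ 0 := by
  intro h
  apply hv
  ext i
  have := congrFun h i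
  simpa [io] using this

/-- `v` represents the point `P` -/
def Rep (P : PF K) (v : Fin 2 → K) : Prop := ∃ h : io v ≠ 0, Projectivization.mk (AlgebraicClosure K) (io v) h = P

lemma exists_rep {v : Fin 2 → K} (hv : v ≠ 0) : ∃ P : PF K, Rep P v := ⟨_, io_ne hv, rfl⟩

lemma Rep.ne {P : PF K} {v : Fin 2 → K} (h : Rep P v) : v ≠ 0 := by
  obtain ⟨h, _⟩ := h
  rintro rfl
  apply h
  ext i; simp [io]

lemma Rep.eq_iff {P Q : PF K} {v w : Fin 2 → K} (hP : Rep P v) (hQ : Rep Q w) :
    P = Q ↔ v 0 * w 1 - v 1 * w 0 = 0 := by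
  have hv := hP.ne
  have hw := hQ.ne
  obtain ⟨h1, rfl⟩ := hP
  obtain ⟨h2, rfl⟩ := hQ
  rw [Projectivization.mk_eq_mk_iff']
  constructor
  · rintro ⟨a, ha⟩
    have e0 := congrFun ha 0
    have e1 := congrFun ha 1
    simp only [io, Pi.smul_apply, smul_eq_mul] at e0 e1
    apply (algebraMap K (AlgebraicClosure K)).injective
    rw [map_sub, map_mul, map_mul, map_zero, ← e0, ← e1]
    ring
  · intro h
    have hw' : w 0 ≠ 0 ∨ w 1 ≠ 0 := by
      by_contra hc
      push Not at hc
      apply hw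
      ext i; fin_cases i
      · exact hc.1
      · exact hc.2
    rcases hw' with h0 | h0
    · refine ⟨algebraMap K (AlgebraicClosure K) (v 0 / w 0), ?_⟩
      ext i
      fin_cases i
      · simp only [io, Pi.smul_apply, smul_eq_mul, Fin.zero_eta]
        rw [← map_mul, div_mul_cancel₀ _ h0]
      · simp only [io, Pi.smul_apply, smul_eq_mul, Fin.mk_one]
        rw [← map_mul]
        congr 1
        field_simp
        linear_combination h
    · refine ⟨algebraMap K (AlgebraicClosure K) (v 1 / w 1), ?_⟩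
      ext i
      fin_cases i
      · simp only [io, Pi.smul_apply, smul_eq_mul, Fin.zero_eta]
        rw [← map_mul]
        congr 1
        field_simp
        linear_combination -h
      · simp only [io, Pi.smul_apply, smul_eq_mul, Fin.mk_one]
        rw [← map_mul, div_mul_cancel₀ _ h0]

lemma Rep.smul {P : PF K} {v : Fin 2 → K} (h : SL K) (hP : Rep P v) :
    Rep (h • P) ((h : M2 K).mulVec v) := by
  obtain ⟨h1, rfl⟩ := hP
  have h2 : Matrix.SpecialLinearGroup.map (n := Fin 2) (algebraMap K (AlgebraicClosure K)) h • io v =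
      io ((h : M2 K).mulVec v) := by
    rw [Matrix.SpecialLinearGroup.smul_def]
    ext i
    fin_cases i <;> simp [io, Matrix.smul_eq_mulVec, Matrix.mulVec, dotProduct]
  rw [smul_def', Projectivization.smul_mk]
  refine ⟨?_, ?_⟩
  · rw [← h2]; exact (smul_ne_zero_iff_ne _).mpr h1
  · congr 1
    exact h2.symm

/-- parabolic fixed points are rational -/
lemma rational (hD0 : Stmt_D0) [Finite K] {H : Subgroup (SL K)} {P : PF K} (hP : P ∈ Om H) :
    ∃ v, Rep P v := by
  obtain ⟨h, hh, hp, hP⟩ := hP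
  have ht : (tr h - 2) * (tr h + 2) = 0 := by linear_combination hp.2
  have hd := det_eq h
  obtain ⟨e, he1, he2⟩ : ∃ e : K, e ^ 2 = 1 ∧ tr h = 2 * e := by
    rcases mul_eq_zero.mp ht with h1 | h1
    · exact ⟨1, by ring, by linear_combination h1⟩
    · exact ⟨-1, by ring, by linear_combination h1⟩
  have hdet : ((h : M2 K) - e • (1 : M2 K)).det = 0 := by
    rw [Matrix.det_fin_two]
    simp only [Matrix.sub_apply, Matrix.smul_apply, Matrix.one_apply_eq, smul_eq_mul, ne_eq,
      zero_ne_one, not_false_eq_true, Matrix.one_apply_ne, one_ne_zero, mul_one, mul_zero, sub_zero]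
    unfold tr at he2
    linear_combination hd - e * he2 - he1
  obtain ⟨v, hv, hv2⟩ := Matrix.exists_mulVec_eq_zero_iff.mpr hdet
  rw [Matrix.sub_mulVec, Matrix.smul_mulVec, Matrix.one_mulVec, sub_eq_zero] at hv2
  obtain ⟨Q, hQ⟩ := exists_rep hv
  have h2 : h • Q = Q := by
    rw [(hQ.smul h).eq_iff hQ, hv2]
    simp; ring
  refine ⟨v, ?_⟩
  rw [unique_fix hD0 hp h2 hP]
  exact hQ

/-- conjugation by an element of `GL_2(K)` -/
def cj (g : GL (Fin 2) K) : SL K →* SL K where
  toFun x := ⟨(g : M2 K) * (x : M2 K) * ((g⁻¹ : GL (Fin 2) K) : M2 K), by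
    rw [Matrix.det_mul, Matrix.det_mul, x.2, mul_one, ← Matrix.det_mul, ← Units.val_mul,
      mul_inv_cancel, Units.val_one, Matrix.det_one]⟩
  map_one' := by
    apply Subtype.ext
    change (g : M2 K) * (1 : M2 K) * ((g⁻¹ : GL (Fin 2) K) : M2 K) = 1
    rw [mul_one, ← Units.val_mul, mul_inv_cancel, Units.val_one]
  map_mul' x y := by
    apply Subtype.ext
    change (g : M2 K) * ((x * y : SL K) : M2 K) * ((g⁻¹ : GL (Fin 2) K) : M2 K) =
      ((g : M2 K) * (x : M2 K) * ((g⁻¹ : GL (Fin 2) K) : M2 K)) *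
        ((g : M2 K) * (y : M2 K) * ((g⁻¹ : GL (Fin 2) K) : M2 K))
    have h2 : ((g⁻¹ : GL (Fin 2) K) : M2 K) * (g : M2 K) = 1 := by
      rw [← Units.val_mul, inv_mul_cancel, Units.val_one]
    rw [Matrix.SpecialLinearGroup.coe_mul]
    calc (g : M2 K) * ((x : M2 K) * (y : M2 K)) * ((g⁻¹ : GL (Fin 2) K) : M2 K)
        = (g : M2 K) * (x : M2 K) * 1 * (y : M2 K) * ((g⁻¹ : GL (Fin 2) K) : M2 K) := by
          simp only [mul_assoc, one_mul]
      _ = _ := by rw [← h2]; simp only [mul_assoc]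

lemma cj_val (g : GL (Fin 2) K) (x : SL K) :
    ((cj g x : SL K) : M2 K) = (g : M2 K) * (x : M2 K) * ((g⁻¹ : GL (Fin 2) K) : M2 K) := rfl

lemma cj_cj (g : GL (Fin 2) K) (x : SL K) : cj g (cj g⁻¹ x) = x := by
  apply Subtype.ext
  have h1 : ((g⁻¹ : GL (Fin 2) K) : M2 K) * (g : M2 K) = 1 := by
    rw [← Units.val_mul, inv_mul_cancel, Units.val_one]
  have h2 : (g : M2 K) * ((g⁻¹ : GL (Fin 2) K) : M2 K) = 1 := by
    rw [← Units.val_mul, mul_inv_cancel, Units.val_one]
  rw [cj_val, cj_val, inv_inv]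
  calc (g : M2 K) * (((g⁻¹ : GL (Fin 2) K) : M2 K) * (x : M2 K) * (g : M2 K)) *
        ((g⁻¹ : GL (Fin 2) K) : M2 K)
      = ((g : M2 K) * ((g⁻¹ : GL (Fin 2) K) : M2 K)) * (x : M2 K) *
        ((g : M2 K) * ((g⁻¹ : GL (Fin 2) K) : M2 K)) := by simp only [mul_assoc]
    _ = _ := by rw [h2, one_mul, mul_one]

lemma cj_inj (g : GL (Fin 2) K) : Function.Injective (cj g) := by
  intro x y h
  have h1 : cj g⁻¹ (cj g x) = cj g⁻¹ (cj g y) := by rw [h]
  have h2 := cj_cj g⁻¹ x
  have h3 := cj_cj g⁻¹ y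
  rw [inv_inv] at h2 h3
  rw [h2, h3] at h1
  exact h1

lemma tr_cj (g : GL (Fin 2) K) (x : SL K) : tr (cj g x) = tr x := by
  rw [tr_eq_trace, tr_eq_trace, cj_val, Matrix.trace_mul_comm, ← mul_assoc, ← Units.val_mul,
    inv_mul_cancel, Units.val_one, one_mul]

lemma cj_neg_one (g : GL (Fin 2) K) : cj g (-1) = -1 := by
  apply Subtype.ext
  rw [cj_val]
  simp only [Matrix.SpecialLinearGroup.coe_neg, Matrix.SpecialLinearGroup.coe_one, mul_neg, mul_one,
    neg_mul]
  rw [← Units.val_mul, mul_inv_cancel, Units.val_one]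

/-- the matrix `(g v)` -/
lemma cj_mulVec (g : GL (Fin 2) K) (x : SL K) (v : Fin 2 → K) :
    ((cj g x : SL K) : M2 K).mulVec ((g : M2 K).mulVec v) = (g : M2 K).mulVec ((x : M2 K).mulVec v) := by
  rw [cj_val, Matrix.mulVec_mulVec, Matrix.mulVec_mulVec, mul_assoc, ← Units.val_mul,
    inv_mul_cancel, Units.val_one, mul_one]

lemma cross_g (g : GL (Fin 2) K) (v w : Fin 2 → K) :
    (g : M2 K).mulVec v 0 * (g : M2 K).mulVec w 1 - (g : M2 K).mulVec v 1 * (g : M2 K).mulVec w 0 = 0 ↔
      v 0 * w 1 - v 1 * w 0 = 0 := by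
  have hdet : (g : M2 K).det ≠ 0 := by
    have := Matrix.GeneralLinearGroup.det_ne_zero g
    exact this
  have : (g : M2 K).mulVec v 0 * (g : M2 K).mulVec w 1 - (g : M2 K).mulVec v 1 * (g : M2 K).mulVec w 0 =
      (g : M2 K).det * (v 0 * w 1 - v 1 * w 0) := by
    rw [Matrix.det_fin_two]
    simp only [Matrix.mulVec, dotProduct, Fin.sum_univ_two]
    ring
  rw [this, mul_eq_zero]
  constructor
  · rintro (h | h)
    · exact absurd h hdet
    · exact h
  · exact Or.inr


/-- `(1 b; 0 1)` -/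
def ut (b : K) : SL K := ⟨!![1, b; 0, 1], by simp [Matrix.det_fin_two]⟩
/-- `(1 0; b 1)` -/
def lt (b : K) : SL K := ⟨!![1, 0; b, 1], by simp [Matrix.det_fin_two]⟩

lemma ut_00 (b : K) : (ut b).1 0 0 = 1 := rfl
lemma ut_01 (b : K) : (ut b).1 0 1 = b := rfl
lemma ut_10 (b : K) : (ut b).1 1 0 = 0 := rfl
lemma ut_11 (b : K) : (ut b).1 1 1 = 1 := rfl
lemma lt_00 (b : K) : (lt b).1 0 0 = 1 := rfl
lemma lt_01 (b : K) : (lt b).1 0 1 = 0 := rfl
lemma lt_10 (b : K) : (lt b).1 1 0 = b := rfl
lemma lt_11 (b : K) : (lt b).1 1 1 = 1 := rfl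

lemma sl_ext {x y : SL K} (h1 : x.1 0 0 = y.1 0 0) (h2 : x.1 0 1 = y.1 0 1) (h3 : x.1 1 0 = y.1 1 0)
    (h4 : x.1 1 1 = y.1 1 1) : x = y := by
  ext i j
  fin_cases i <;> fin_cases j
  · exact h1
  · exact h2
  · exact h3
  · exact h4

lemma mul_00 (x y : SL K) : (x * y).1 0 0 = x.1 0 0 * y.1 0 0 + x.1 0 1 * y.1 1 0 := by
  simp [Matrix.mul_apply, Fin.sum_univ_two]
lemma mul_01 (x y : SL K) : (x * y).1 0 1 = x.1 0 0 * y.1 0 1 + x.1 0 1 * y.1 1 1 := by
  simp [Matrix.mul_apply, Fin.sum_univ_two]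
lemma mul_10 (x y : SL K) : (x * y).1 1 0 = x.1 1 0 * y.1 0 0 + x.1 1 1 * y.1 1 0 := by
  simp [Matrix.mul_apply, Fin.sum_univ_two]
lemma mul_11 (x y : SL K) : (x * y).1 1 1 = x.1 1 0 * y.1 0 1 + x.1 1 1 * y.1 1 1 := by
  simp [Matrix.mul_apply, Fin.sum_univ_two]

lemma ut_inj : Function.Injective (ut : K → SL K) := by
  intro a b h
  have := congrArg (fun x : SL K => x.1 0 1) h
  simpa [ut_01] using this

lemma lt_inj : Function.Injective (lt : K → SL K) := by
  intro a b h
  have := congrArg (fun x : SL K => x.1 1 0) h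
  simpa [lt_10] using this

lemma ut_mul (a b : K) : ut a * ut b = ut (a + b) := by
  apply sl_ext
  · rw [mul_00]; simp [ut_00, ut_10]
  · rw [mul_01]; simp [ut_00, ut_01, ut_11]; ring
  · rw [mul_10]; simp [ut_00, ut_10]
  · rw [mul_11]; simp [ut_10, ut_11]

lemma ut_zero : ut (0 : K) = 1 := by
  apply sl_ext <;> simp [ut]

lemma ut_inv (a : K) : (ut a)⁻¹ = ut (-a) := by
  rw [inv_eq_iff_mul_eq_one, ut_mul, add_neg_cancel, ut_zero]

/-- the group `A` of translations in `H'` -/
def AA (H' : Subgroup (SL K)) : AddSubgroup K where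
  carrier := {b | ut b ∈ H'}
  zero_mem' := by
    change ut (0 : K) ∈ H'
    rw [ut_zero]; exact H'.one_mem
  add_mem' := by
    intro a b ha hb
    change ut (a + b) ∈ H'
    rw [← ut_mul]; exact H'.mul_mem ha hb
  neg_mem' := by
    intro a ha
    change ut (-a) ∈ H'
    rw [← ut_inv]; exact H'.inv_mem ha

lemma mem_AA {H' : Subgroup (SL K)} {b : K} : b ∈ AA H' ↔ ut b ∈ H' := Iff.rfl

/-- the multipliers of a finite additive group form a subfield -/
def mult [Finite K] (A : AddSubgroup K) : Subfield K where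
  carrier := {x | ∀ b ∈ A, x * b ∈ A}
  mul_mem' := by
    intro x y hx hy b hb
    rw [mul_assoc]
    exact hx _ (hy _ hb)
  one_mem' := by
    intro b hb
    rw [one_mul]; exact hb
  add_mem' := by
    intro x y hx hy b hb
    rw [add_mul]
    exact A.add_mem (hx b hb) (hy b hb)
  zero_mem' := by
    intro b _
    simpa using A.zero_mem
  neg_mem' := by
    intro x hx b hb
    rw [neg_mul]
    exact A.neg_mem (hx b hb)
  inv_mem' := by
    intro x hx b hb
    by_cases h0 : x = 0
    · rw [h0, _root_.inv_zero, zero_mul]; exact A.zero_mem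
    · have hfin : (A : Set K).Finite := Set.toFinite _
      have hinj : Set.InjOn (fun b => x * b) (A : Set K) := by
        intro b _ c _ h
        exact mul_left_cancel₀ h0 h
      have hsurj : (fun b => x * b) '' (A : Set K) = (A : Set K) := by
        apply Set.eq_of_subset_of_ncard_le _ _ hfin
        · rintro _ ⟨c, hc, rfl⟩
          exact hx c hc
        · rw [hinj.ncard_image]
      have hb' : b ∈ (fun b => x * b) '' (A : Set K) := by rw [hsurj]; exact hb
      obtain ⟨c, hc, rfl⟩ := hb'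
      simp only
      rw [← mul_assoc, inv_mul_cancel₀ h0, one_mul]
      exact hc

lemma mem_mult [Finite K] {A : AddSubgroup K} {x : K} : x ∈ mult A ↔ ∀ b ∈ A, x * b ∈ A := Iff.rfl

/-- counting: `A` is a field -/
lemma A_eq_mult [Finite K] {A : AddSubgroup K} (h1 : 1 ∈ A)
    (hcard : Nat.card A ≤ 2 * Nat.card (mult A) - 1) : ∀ x, x ∈ A ↔ x ∈ mult A := by
  intro x
  constructor
  · intro hx
    by_contra hxL
    have hinj : Function.Injective (fun w : mult A × mult A =>
        (⟨w.1.1 + w.2.1 * x, A.add_mem (by simpa using mem_mult.mp w.1.2 1 h1)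
          (mem_mult.mp w.2.2 x hx)⟩ : A)) := by
      rintro ⟨y, z⟩ ⟨y', z'⟩ h
      have h2 : y.1 + z.1 * x = y'.1 + z'.1 * x := congrArg Subtype.val h
      have h3 : z = z' := by
        by_contra hne
        apply hxL
        have h4 : (z.1 - z'.1) ≠ 0 := fun h => hne (Subtype.ext (sub_eq_zero.mp h))
        have h5 : x = (y'.1 - y.1) / (z.1 - z'.1) := by
          rw [eq_div_iff h4]; linear_combination h2
        rw [h5]
        exact (mult A).div_mem ((mult A).sub_mem y'.2 y.2) ((mult A).sub_mem z.2 z'.2)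
      subst h3
      have h6 : y = y' := Subtype.ext (by linear_combination h2)
      rw [h6]
    have h2 := Nat.card_le_card_of_injective _ hinj
    rw [Nat.card_prod] at h2
    have h3 : 2 ≤ Nat.card (mult A) := two_le_card
    have h4 : Nat.card (mult A) * Nat.card (mult A) ≤ 2 * Nat.card (mult A) - 1 := h2.trans hcard
    have h5 : 2 * Nat.card (mult A) ≤ Nat.card (mult A) * Nat.card (mult A) :=
      Nat.mul_le_mul_right _ h3
    omega
  · intro hx
    simpa using mem_mult.mp hx 1 h1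

/-- upper triangular elements multiply `A` by `λ²` -/
lemma sq_mem_mult [Finite K] {H' : Subgroup (SL K)} {x : SL K} (hx : x ∈ H') (h0 : x.1 1 0 = 0) :
    x.1 0 0 ^ 2 ∈ mult (AA H') := by
  rw [mem_mult]
  intro b hb
  rw [mem_AA] at hb ⊢
  have hd := det_eq x
  rw [h0, mul_zero, sub_zero] at hd
  have h1 : ut (x.1 0 0 ^ 2 * b) = x * ut b * x⁻¹ := by
    rw [eq_mul_inv_iff_mul_eq]
    apply sl_ext
    · rw [mul_00, mul_00, ut_00, ut_00, ut_01, ut_10, h0]; ring
    · rw [mul_01, mul_01, ut_00, ut_01, ut_01, ut_11]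
      linear_combination (x.1 0 0 * b) * hd
    · rw [mul_10, mul_10, ut_00, ut_10, ut_10, ut_11, h0]; ring
    · rw [mul_11, mul_11, ut_10, ut_11, ut_11, ut_01, h0]; ring
  rw [h1]
  exact H'.mul_mem (H'.mul_mem hx hb) (H'.inv_mem hx)

/-- the fibres of `x ↦ λ²` -/
lemma fibre_le [Finite K] (H' : Subgroup (SL K)) (hH' : -1 ∈ H') (m : K) :
    Set.ncard {x | x ∈ {x : SL K | x ∈ H' ∧ x.1 1 0 = 0} ∧ x.1 0 0 ^ 2 = m} ≤
      2 * Nat.card (AA H') := by
  classical
  rcases Set.eq_empty_or_nonempty {x | x ∈ {x : SL K | x ∈ H' ∧ x.1 1 0 = 0} ∧ x.1 0 0 ^ 2 = m}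
    with he | ⟨y, ⟨hy, hy0⟩, hym⟩
  · rw [he]; simp
  · have hsub : {x | x ∈ {x : SL K | x ∈ H' ∧ x.1 1 0 = 0} ∧ x.1 0 0 ^ 2 = m} ⊆
        (fun w : SL K × K => w.1 * ut w.2 * y) '' (({1, -1} : Set (SL K)) ×ˢ (AA H' : Set K)) := by
      rintro x ⟨⟨hx, hx0⟩, hxm⟩
      have hdx := det_eq x
      have hdy := det_eq y
      rw [hx0, mul_zero, sub_zero] at hdx
      rw [hy0, mul_zero, sub_zero] at hdy
      have hxne : x.1 0 0 ≠ 0 := by intro h; rw [h, zero_mul] at hdx; exact zero_ne_one hdx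
      have hyne : y.1 0 0 ≠ 0 := by intro h; rw [h, zero_mul] at hdy; exact zero_ne_one hdy
      have h1 : (x.1 0 0 - y.1 0 0) * (x.1 0 0 + y.1 0 0) = 0 := by
        linear_combination hxm - hym
      have key : ∀ s : SL K, (s = 1 ∨ s = -1) → (s⁻¹ * x).1 0 0 = y.1 0 0 →
          ∃ b, b ∈ AA H' ∧ s * ut b * y = x := by
        intro s hs h2
        have hsH : s ∈ H' := sc_mem hH' hs
        have h3 : (s⁻¹ * x * y⁻¹).1 1 0 = 0 := by
          have h4 : (s⁻¹ * x).1 1 0 = 0 := by
            rcases hs with rfl | rfl <;> simp [hx0]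
          rw [mul_10, h4]
          simp [Matrix.adjugate_fin_two, hy0]
        have h5 : (s⁻¹ * x * y⁻¹).1 0 0 = 1 := by
          rw [mul_00, h2]
          simp only [Matrix.SpecialLinearGroup.coe_inv, Matrix.adjugate_fin_two, Matrix.of_apply,
            Matrix.cons_val', Matrix.cons_val_zero, Matrix.cons_val_one, Matrix.cons_val_fin_one]
          rw [hy0]
          linear_combination hdy
        have h6 : (s⁻¹ * x * y⁻¹).1 1 1 = 1 := by
          have := det_eq (s⁻¹ * x * y⁻¹)
          rw [h3, h5] at this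
          linear_combination this
        have h7 : s⁻¹ * x * y⁻¹ = ut ((s⁻¹ * x * y⁻¹).1 0 1) :=
          sl_ext h5 rfl h3 h6
        refine ⟨(s⁻¹ * x * y⁻¹).1 0 1, ?_, ?_⟩
        · rw [mem_AA, ← h7]
          exact H'.mul_mem (H'.mul_mem (H'.inv_mem hsH) hx) (H'.inv_mem hy)
        · rw [← h7]; group
      rcases mul_eq_zero.mp h1 with h2 | h2
      · obtain ⟨b, hb, hb2⟩ := key 1 (Or.inl rfl) (by simp; linear_combination h2)
        exact ⟨(1, b), ⟨by simp, hb⟩, hb2⟩
      · obtain ⟨b, hb, hb2⟩ := key (-1) (Or.inr rfl) (by simp; linear_combination -h2)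
        exact ⟨(-1, b), ⟨by simp, hb⟩, hb2⟩
    refine (Set.ncard_le_ncard hsub (Set.toFinite _)).trans ((Set.ncard_image_le (Set.toFinite _)).trans ?_)
    rw [Set.ncard_prod]
    apply Nat.mul_le_mul
    · exact (Set.ncard_insert_le _ _).trans (by simp)
    · exact le_of_eq rfl

/-- the counting of the upper triangular part -/
lemma count_le [Finite K] (H' : Subgroup (SL K)) (hH' : -1 ∈ H')
    (h : Nat.card (AA H') * (Nat.card (AA H') - 1) ≤ Set.ncard {x : SL K | x ∈ H' ∧ x.1 1 0 = 0}) :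
    Nat.card (AA H') ≤ 2 * Nat.card (mult (AA H')) - 1 := by
  have h1 := ncard_le_mul_of_fiber (s := {x : SL K | x ∈ H' ∧ x.1 1 0 = 0})
    (t := (mult (AA H') : Set K) \ {0}) (Set.toFinite _) (Set.toFinite _) (fun x => x.1 0 0 ^ 2)
    (by
      rintro x ⟨hx, hx0⟩
      refine ⟨sq_mem_mult hx hx0, ?_⟩
      have hdx := det_eq x
      rw [hx0, mul_zero, sub_zero] at hdx
      intro h
      rw [Set.mem_singleton_iff] at h
      have h2 : x.1 0 0 = 0 := by simpa using h
      rw [h2, zero_mul] at hdx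
      exact zero_ne_one hdx) (2 * Nat.card (AA H')) (fun m _ => fibre_le H' hH' m)
  rw [Set.ncard_sdiff_singleton_of_mem (by exact (mult (AA H')).zero_mem)] at h1
  have h2 : (mult (AA H') : Set K).ncard = Nat.card (mult (AA H')) := rfl
  rw [h2] at h1
  have hpos : 0 < Nat.card (AA H') := Nat.card_pos
  have h3 : Nat.card (AA H') * (Nat.card (AA H') - 1) ≤
      Nat.card (AA H') * ((Nat.card (mult (AA H')) - 1) * 2) := by
    calc _ ≤ _ := h.trans h1
      _ = _ := by ring
  have h4 := Nat.le_of_mul_le_mul_left h3 hpos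
  have h5 : 2 ≤ Nat.card (mult (AA H')) := two_le_card
  omega

/-- generation by transvections -/
lemma top_of_transv {H' : Subgroup (SL K)} (h1 : ∀ b, ut b ∈ H') (h2 : ∀ b, lt b ∈ H') : H' = ⊤ := by
  rw [eq_top_iff]
  have key : ∀ x : SL K, x.1 1 0 ≠ 0 → x ∈ H' := by
    intro x hx
    have hd := det_eq x
    have h3 : x = ut ((x.1 0 0 - 1) / x.1 1 0) * lt (x.1 1 0) * ut ((x.1 1 1 - 1) / x.1 1 0) := by
      apply sl_ext
      · rw [mul_00, mul_00, mul_01, ut_00, ut_00, ut_01, ut_10, lt_00, lt_01, lt_10, lt_11]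
        field_simp; ring
      · rw [mul_01, mul_00, mul_01, ut_00, ut_01, ut_01, ut_11, lt_00, lt_01, lt_10, lt_11]
        field_simp; linear_combination -hd
      · rw [mul_10, mul_10, mul_11, ut_00, ut_10, ut_10, ut_11, lt_00, lt_01, lt_10, lt_11]
        field_simp; ring
      · rw [mul_11, mul_10, mul_11, ut_01, ut_10, ut_11, ut_11, lt_00, lt_01, lt_10, lt_11]
        field_simp; ring
    rw [h3]
    exact H'.mul_mem (H'.mul_mem (h1 _) (h2 _)) (h1 _)
  intro x _
  by_cases hx : x.1 1 0 = 0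
  · have hd := det_eq x
    rw [hx, mul_zero, sub_zero] at hd
    have h3 : x.1 1 1 ≠ 0 := by intro h; rw [h, mul_zero] at hd; exact zero_ne_one hd
    have h4 : x * lt 1 ∈ H' := by
      apply key
      rw [mul_10, lt_00, lt_10, hx]; simpa using h3
    have h5 : x = x * lt 1 * (lt 1)⁻¹ := by group
    rw [h5]
    exact H'.mul_mem h4 (H'.inv_mem (h2 _))
  · exact key x hx


lemma Rep.of_cross {P : PF K} {v w : Fin 2 → K} (hP : Rep P v) (hw : w ≠ 0)
    (h : v 0 * w 1 - v 1 * w 0 = 0) : Rep P w := by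
  obtain ⟨Q, hQ⟩ := exists_rep hw
  rwa [(hP.eq_iff hQ).mpr h]

lemma g_ne (g : GL (Fin 2) K) {v : Fin 2 → K} (hv : v ≠ 0) : (g : M2 K).mulVec v ≠ 0 := by
  intro h
  apply hv
  have : ((g⁻¹ : GL (Fin 2) K) : M2 K).mulVec ((g : M2 K).mulVec v) = 0 := by
    rw [h, Matrix.mulVec_zero]
  rwa [Matrix.mulVec_mulVec, ← Units.val_mul, inv_mul_cancel, Units.val_one, Matrix.one_mulVec] at this

lemma x_mulVec (x : SL K) (u w : K) : (x : M2 K).mulVec ![u, w] =
    ![x.1 0 0 * u + x.1 0 1 * w, x.1 1 0 * u + x.1 1 1 * w] := by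
  ext i
  fin_cases i <;> simp [Matrix.mulVec, dotProduct, Fin.sum_univ_two]

/-- three rational points can be moved to `∞, 0, 1` -/
lemma exists_frame {P1 P2 P3 : PF K} {v1 v2 v3 : Fin 2 → K} (h1 : Rep P1 v1) (h2 : Rep P2 v2)
    (h3 : Rep P3 v3) (h12 : P1 ≠ P2) (h13 : P1 ≠ P3) (h23 : P2 ≠ P3) :
    ∃ g : GL (Fin 2) K, Rep P1 ((g : M2 K).mulVec ![1, 0]) ∧ Rep P2 ((g : M2 K).mulVec ![0, 1]) ∧
      Rep P3 ((g : M2 K).mulVec ![1, 1]) := by
  have c12 : v1 0 * v2 1 - v1 1 * v2 0 ≠ 0 := fun h => h12 ((h1.eq_iff h2).mpr h)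
  have c13 : v1 0 * v3 1 - v1 1 * v3 0 ≠ 0 := fun h => h13 ((h1.eq_iff h3).mpr h)
  have c23 : v2 0 * v3 1 - v2 1 * v3 0 ≠ 0 := fun h => h23 ((h2.eq_iff h3).mpr h)
  set d := v1 0 * v2 1 - v1 1 * v2 0 with hd
  set al := (v3 0 * v2 1 - v3 1 * v2 0) / d with hal
  set be := (v1 0 * v3 1 - v1 1 * v3 0) / d with hbe
  have hal0 : al ≠ 0 := by
    rw [hal]
    apply div_ne_zero _ c12
    intro h; apply c23; linear_combination -h
  have hbe0 : be ≠ 0 := div_ne_zero c13 c12
  let G : M2 K := !![al * v1 0, be * v2 0; al * v1 1, be * v2 1]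
  have hG : G.det ≠ 0 := by
    have : G.det = al * be * d := by
      rw [Matrix.det_fin_two, hd]; simp [G]; ring
    rw [this]
    exact mul_ne_zero (mul_ne_zero hal0 hbe0) c12
  have e0 : al * v1 0 + be * v2 0 = v3 0 := by
    rw [hal, hbe]; field_simp; rw [hd]; ring
  have e1 : al * v1 1 + be * v2 1 = v3 1 := by
    rw [hal, hbe]; field_simp; rw [hd]; ring
  let g : GL (Fin 2) K := Matrix.GeneralLinearGroup.mkOfDetNeZero G hG
  have hgv : ∀ u w : K, (g : M2 K).mulVec ![u, w] =
      ![al * v1 0 * u + be * v2 0 * w, al * v1 1 * u + be * v2 1 * w] := by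
    intro u w
    change G.mulVec ![u, w] = _
    ext i
    fin_cases i <;> simp [G, Matrix.mulVec, dotProduct, Fin.sum_univ_two]
  refine ⟨g, ?_, ?_, ?_⟩
  · apply h1.of_cross (g_ne g (by intro h; have := congrFun h 0; simp at this))
    rw [hgv]; simp; ring
  · apply h2.of_cross (g_ne g (by intro h; have := congrFun h 1; simp at this))
    rw [hgv]; simp; ring
  · apply h3.of_cross (g_ne g (by intro h; have := congrFun h 1; simp at this))
    rw [hgv]
    simp only [mul_one, Matrix.cons_val_zero, Matrix.cons_val_one]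
    rw [e0, e1]; ring

theorem stmt_D4 (hD0 : Stmt_D0) : Stmt_D4 := by
  intro K _ _ H hH hBig
  classical
  obtain ⟨a, ha3, hOm, hU, hSt⟩ := hBig
  have hfin := Om_finite hD0 H
  obtain ⟨P1, P2, P3, hP1, hP2, hP3, h12, h13, h23⟩ : ∃ P1 P2 P3, P1 ∈ Om H ∧ P2 ∈ Om H ∧ P3 ∈ Om H ∧
      P1 ≠ P2 ∧ P1 ≠ P3 ∧ P2 ≠ P3 := by
    have h2 : 2 < (Om H).ncard := by rw [hOm]; omega
    exact (Set.two_lt_ncard_iff hfin).mp h2
  obtain ⟨v1, hv1⟩ := rational hD0 hP1
  obtain ⟨v2, hv2⟩ := rational hD0 hP2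
  obtain ⟨v3, hv3⟩ := rational hD0 hP3
  obtain ⟨g, R1, R2, R3⟩ := exists_frame hv1 hv2 hv3 h12 h13 h23
  set H' : Subgroup (SL K) := H.comap (cj g) with hH'def
  have hH'1 : -1 ∈ H' := by
    change cj g (-1) ∈ H
    rw [cj_neg_one]; exact hH
  have hmem : ∀ x, x ∈ H' ↔ cj g x ∈ H := fun x => Iff.rfl
  have hfix1 : ∀ x : SL K, (cj g x) • P1 = P1 ↔ x.1 1 0 = 0 := by
    intro x
    rw [(R1.smul (cj g x)).eq_iff R1, cj_mulVec, cross_g, x_mulVec]
    simp
  have hfix2 : ∀ x : SL K, (cj g x) • P2 = P2 ↔ x.1 0 1 = 0 := by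
    intro x
    rw [(R2.smul (cj g x)).eq_iff R2, cj_mulVec, cross_g, x_mulVec]
    simp
  -- the number of translations
  have hA : Nat.card (AA H') = a := by
    rw [← hU P1 hP1]
    have himg : {h : SL K | h ∈ H ∧ h • P1 = P1 ∧ tr h = 2} =
        (fun b => cj g (ut b)) '' (AA H' : Set K) := by
      ext h
      constructor
      · rintro ⟨h1, h2, h3⟩
        have h4 := cj_cj g h
        set x := cj g⁻¹ h with hx
        rw [← h4] at h1 h2 h3
        rw [hfix1] at h2
        rw [tr_cj] at h3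
        have hd := det_eq x
        rw [h2, mul_zero, sub_zero] at hd
        unfold tr at h3
        have h5 : (x.1 0 0 - 1) ^ 2 = 0 := by
          linear_combination -hd + x.1 0 0 * h3
        have h6 : x.1 0 0 = 1 := by
          have := pow_eq_zero_iff (two_ne_zero) |>.mp h5
          linear_combination this
        have h7 : x.1 1 1 = 1 := by rw [h6, one_mul] at hd; exact hd
        have h8 : ut (x.1 0 1) = x := sl_ext h6.symm rfl h2.symm h7.symm
        refine ⟨x.1 0 1, ?_, ?_⟩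
        · change ut (x.1 0 1) ∈ H'
          rw [h8]; exact h1
        · simp only
          rw [h8, h4]
      · rintro ⟨b, hb, rfl⟩
        refine ⟨hb, (hfix1 _).mpr rfl, ?_⟩
        simp only
        rw [tr_cj]
        simp [tr, ut]; norm_num
    rw [himg, Set.ncard_image_of_injective _ (fun b c h => ut_inj (cj_inj g h))]
    rfl
  have hcount : Nat.card (AA H') ≤ 2 * Nat.card (mult (AA H')) - 1 := by
    apply count_le H' hH'1
    rw [hA]
    refine (hSt P1 hP1).trans (le_of_eq ?_)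
    have himg : {h : SL K | h ∈ H ∧ h • P1 = P1} = cj g '' {x : SL K | x ∈ H' ∧ x.1 1 0 = 0} := by
      ext h
      constructor
      · rintro ⟨h1, h2⟩
        have h4 := cj_cj g h
        refine ⟨cj g⁻¹ h, ⟨?_, ?_⟩, h4⟩
        · rw [hmem, h4]; exact h1
        · rw [← hfix1, h4]; exact h2
      · rintro ⟨x, ⟨h1, h2⟩, rfl⟩
        exact ⟨h1, (hfix1 x).mpr h2⟩
    rw [himg, Set.ncard_image_of_injective _ (cj_inj g)]
  -- the points of `Ω`
  have hrep : ∀ b : K, Rep (cj g (ut b) • P2) ((g : M2 K).mulVec ![b, 1]) := by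
    intro b
    have := R2.smul (cj g (ut b))
    rw [cj_mulVec, x_mulVec] at this
    simpa [ut] using this
  have hOmeq : insert P1 ((fun b => cj g (ut b) • P2) '' (AA H' : Set K)) = Om H := by
    apply Set.eq_of_subset_of_ncard_le _ _ hfin
    · intro P hP
      rcases hP with rfl | ⟨b, hb, rfl⟩
      · exact hP1
      · exact Om_stable hb hP2
    · have hinj : Function.Injective (fun b : K => cj g (ut b) • P2) := by
        intro b c h
        have h1 := ((hrep b).eq_iff (hrep c)).mp h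
        rw [cross_g] at h1
        simp at h1
        linear_combination h1
      rw [Set.ncard_insert_of_notMem _ (Set.toFinite _), Set.ncard_image_of_injective _ hinj, hOm]
      · have : (AA H' : Set K).ncard = Nat.card (AA H') := rfl
        rw [this, hA]
      · rintro ⟨b, _, hb⟩
        have h1 := ((hrep b).eq_iff R1).mp hb
        rw [cross_g] at h1
        simp at h1
  have hpt : ∀ P ∈ Om H, ∀ u w : K, Rep P ((g : M2 K).mulVec ![u, w]) →
      w = 0 ∨ ∃ b ∈ AA H', u = b * w := by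
    intro P hP u w hr
    rw [← hOmeq] at hP
    rcases hP with rfl | ⟨b, hb, rfl⟩
    · left
      have h1 := (hr.eq_iff R1).mp rfl
      rw [cross_g] at h1
      simpa using h1
    · right
      refine ⟨b, hb, ?_⟩
      have h1 := (hr.eq_iff (hrep b)).mp rfl
      rw [cross_g] at h1
      simp at h1
      linear_combination h1
  have hone : (1 : K) ∈ AA H' := by
    rcases hpt P3 hP3 1 1 R3 with h | ⟨b, hb, h⟩
    · exact absurd h one_ne_zero
    · have : b = 1 := by rw [mul_one] at h; exact h.symm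
      rwa [← this]
  have hAL := A_eq_mult hone hcount
  set L := mult (AA H') with hL
  have hent : ∀ x ∈ H', ∀ u w : K, (∃ P ∈ Om H, Rep P ((g : M2 K).mulVec ![u, w])) →
      x.1 1 0 * u + x.1 1 1 * w = 0 ∨ ∃ b ∈ L, x.1 0 0 * u + x.1 0 1 * w = b * (x.1 1 0 * u + x.1 1 1 * w) := by
    rintro x hx u w ⟨P, hP, hr⟩
    have h1 := hr.smul (cj g x)
    rw [cj_mulVec, x_mulVec] at h1
    rcases hpt _ (Om_stable (H := H) ((hmem x).mp hx) hP) _ _ h1 with h | ⟨b, hb, h⟩
    · exact Or.inl h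
    · exact Or.inr ⟨b, (hAL b).mp hb, h⟩
  have hsub : H ≤ HL L g := by
    intro h hh
    have h4 := cj_cj g h
    set x := cj g⁻¹ h with hx
    have hxH : x ∈ H' := by rw [hmem, h4]; exact hh
    have q1 := hent x hxH 1 0 ⟨P1, hP1, R1⟩
    have q2 := hent x hxH 0 1 ⟨P2, hP2, R2⟩
    have q3 := hent x hxH 1 1 ⟨P3, hP3, R3⟩
    simp only [mul_one, mul_zero, add_zero, zero_add] at q1 q2 q3
    have hd := det_eq x
    suffices hN : ∃ (c : K) (p q r s : K), p ∈ L ∧ q ∈ L ∧ r ∈ L ∧ s ∈ L ∧ x.1 0 0 = c * p ∧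
        x.1 0 1 = c * q ∧ x.1 1 0 = c * r ∧ x.1 1 1 = c * s by
      obtain ⟨c, p, q, r, s, hp, hq, hr, hs, e1, e2, e3, e4⟩ := hN
      refine ⟨c, !![(⟨p, hp⟩ : L), ⟨q, hq⟩; ⟨r, hr⟩, ⟨s, hs⟩], ?_⟩
      rw [← h4, cj_val]
      have h5 : (x : M2 K) = c • inc L !![(⟨p, hp⟩ : L), ⟨q, hq⟩; ⟨r, hr⟩, ⟨s, hs⟩] := by
        ext i j
        fin_cases i <;> fin_cases j
        · simpa [inc] using e1
        · simpa [inc] using e2
        · simpa [inc] using e3
        · simpa [inc] using e4
      rw [h5]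
      simp only [Matrix.mul_smul, Matrix.smul_mul]
    rcases q1 with hr0 | ⟨al, hal, q1⟩
    · -- x10 = 0
      rw [hr0] at hd q3
      rw [mul_zero, sub_zero] at hd
      rw [zero_add] at q3
      have hs0 : x.1 1 1 ≠ 0 := by intro h; rw [h, mul_zero] at hd; exact zero_ne_one hd
      rcases q2 with h | ⟨be, hbe, q2⟩
      · exact absurd h hs0
      rcases q3 with h | ⟨ga, hga, q3⟩
      · exact absurd h hs0
      refine ⟨x.1 1 1, ga - be, be, 0, 1, L.sub_mem hga hbe, hbe, L.zero_mem, L.one_mem, ?_, ?_, ?_, ?_⟩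
      · linear_combination q3 - q2
      · linear_combination q2
      · rw [hr0, mul_zero]
      · ring
    · have hr0 : x.1 1 0 ≠ 0 := by
        intro h
        rw [h, mul_zero] at q1
        rw [h, q1] at hd
        simp at hd
      rcases q2 with hs0 | ⟨be, hbe, q2⟩
      · -- x11 = 0
        rw [hs0] at hd q3
        rw [add_zero] at q3
        rcases q3 with h | ⟨ga, hga, q3⟩
        · exact absurd h hr0
        refine ⟨x.1 1 0, al, ga - al, 1, 0, hal, L.sub_mem hga hal, L.one_mem, L.zero_mem, ?_, ?_, ?_, ?_⟩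
        · linear_combination q1
        · linear_combination q3 - q1
        · ring
        · rw [hs0, mul_zero]
      · have hne : al - be ≠ 0 := by
          intro h
          have : (al - be) * (x.1 1 0 * x.1 1 1) = 1 := by
            rw [q1, q2] at hd
            linear_combination hd
          rw [h, zero_mul] at this
          exact zero_ne_one this
        -- t = x11 / x10 in L
        have ht : x.1 1 1 / x.1 1 0 ∈ L := by
          rcases q3 with h | ⟨ga, hga, q3⟩
          · have : x.1 1 1 / x.1 1 0 = -1 := by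
              rw [div_eq_iff hr0]; linear_combination h
            rw [this]
            exact L.neg_mem L.one_mem
          · have h6 : x.1 1 1 * (be - ga) = x.1 1 0 * (ga - al) := by
              rw [q1, q2] at q3
              linear_combination q3
            have h7 : be - ga ≠ 0 := by
              intro h7
              rw [h7, mul_zero] at h6
              have h8 : ga - al = 0 := by
                rcases mul_eq_zero.mp h6.symm with h | h
                · exact absurd h hr0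
                · exact h
              apply hne
              linear_combination -h8 - h7
            have h8 : x.1 1 1 / x.1 1 0 = (ga - al) / (be - ga) := by
              rw [div_eq_div_iff hr0 h7]
              linear_combination h6
            rw [h8]
            exact L.div_mem (L.sub_mem hga hal) (L.sub_mem hbe hga)
        refine ⟨x.1 1 0, al, be * (x.1 1 1 / x.1 1 0), 1, x.1 1 1 / x.1 1 0, hal, L.mul_mem hbe ht,
          L.one_mem, ht, ?_, ?_, ?_, ?_⟩
        · linear_combination q1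
        · rw [q2]; field_simp
        · ring
        · field_simp
  by_cases hLt : L = ⊤
  · left
    have hall : ∀ b, ut b ∈ H' := by
      intro b
      have : b ∈ L := by rw [hLt]; exact Subfield.mem_top b
      exact (hAL b).mpr this
    have haK : a = Nat.card K := by
      rw [← hA]
      have : (AA H' : Set K) = Set.univ := Set.eq_univ_of_forall hall
      have h2 : Nat.card (AA H') = (AA H' : Set K).ncard := rfl
      rw [h2, this, Set.ncard_univ]
    have hlow : {c : K | lt c ∈ H'} = Set.univ := by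
      apply Set.eq_of_subset_of_ncard_le (Set.subset_univ _) _ (Set.toFinite _)
      rw [Set.ncard_univ, ← haK, ← hU P2 hP2]
      have himg : {h : SL K | h ∈ H ∧ h • P2 = P2 ∧ tr h = 2} ⊆
          (fun b => cj g (lt b)) '' {c : K | lt c ∈ H'} := by
        rintro h ⟨h1, h2, h3⟩
        have h4 := cj_cj g h
        set x := cj g⁻¹ h with hx
        rw [← h4] at h1 h2 h3
        rw [hfix2] at h2
        rw [tr_cj] at h3
        have hd := det_eq x
        rw [h2, zero_mul, sub_zero] at hd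
        unfold tr at h3
        have h5 : (x.1 0 0 - 1) ^ 2 = 0 := by
          linear_combination -hd + x.1 0 0 * h3
        have h6 : x.1 0 0 = 1 := by
          have := pow_eq_zero_iff (two_ne_zero) |>.mp h5
          linear_combination this
        have h7 : x.1 1 1 = 1 := by rw [h6, one_mul] at hd; exact hd
        have h8 : lt (x.1 1 0) = x := sl_ext h6.symm h2.symm rfl h7.symm
        refine ⟨x.1 1 0, ?_, ?_⟩
        · change lt (x.1 1 0) ∈ H'
          rw [h8]; exact h1
        · simp only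
          rw [h8, h4]
      exact (Set.ncard_le_ncard himg (Set.toFinite _)).trans (Set.ncard_image_le (Set.toFinite _))
    have htop : H' = ⊤ := top_of_transv hall (fun b => by
      have : b ∈ {c : K | lt c ∈ H'} := by rw [hlow]; trivial
      exact this)
    rw [eq_top_iff]
    intro h _
    have h1 : cj g⁻¹ h ∈ H' := by rw [htop]; trivial
    rw [hmem, cj_cj] at h1
    exact h1
  · right
    exact ⟨L, hLt, g, hsub⟩

end

end Pool.FG.h85
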